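import Pool.Agent.W295.NL.Stm

/-! Project NL, part G2B: the untwisted case. -/

set_option autoImplicit false

namespace Pool.Agent.W400.NL.G2B

open Pool.Agent.W295.NL

theorem fin3 : ∀ a b : Fin 3, a ≠ b → -(a + b) ≠ a ∧ -(a + b) ≠ b := by decide

theorem sum3 (g : Fin 3 → ZMod 2) : ∀ (a b : Fin 3), a ≠ b → ∀ (u v w : ZMod 2),
    (∀ c, g c = if c = a then u else if c = b then v else w) →
    g 0 + g 1 + g 2 = u + v + w := by
  intro a b hab u v w hg
  rw [hg 0, hg 1, hg 2]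
  fin_cases a <;> fin_cases b <;> simp at hab ⊢ <;> ring

theorem per_eq {α : Type} {g : ℕ → α} {m : ℕ} (hg : ∀ t, g (t + m) = g t) {t t' : ℕ}
    (h : t' ≡ t [MOD m]) : g t' = g t := by
  have hp : Function.Periodic g m := hg
  rw [← hp.map_mod_nat t', ← hp.map_mod_nat t]
  exact congrArg g h

theorem main : S_G2B := by
  intro Q L n hn X κ h hG f A hA hAper
  obtain ⟨hC, hper, hgen⟩ := hG
  let SS : ZMod 2 → Fin 3 → ℕ → ZMod 2 := fun s a t =>
    if a = κ t then A t + s else if a = κ (t + 1) then A (t + 1) + s else h t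
  let sg : ℕ → ZMod 2 := fun j => (((j + 1) / 2 : ℕ) : ZMod 2)
  let Y : Fin 3 → ℕ → Q × ZMod 2 := fun a j => (X a (j / 2), SS (sg j) a (j / 2))
  let ka : ℕ → Fin 3 := fun j =>
    if j % 2 = 0 then κ (j / 2) else -(κ (j / 2) + κ (j / 2 + 1))
  have hSS : ∀ s a t, SS s a t =
      if a = κ t then A t + s else if a = κ (t + 1) then A (t + 1) + s else h t :=
    fun _ _ _ => rfl
  have hY : ∀ a j, Y a j = (X a (j / 2), SS (sg j) a (j / 2)) := fun _ _ => rfl
  have hka : ∀ j, ka j = if j % 2 = 0 then κ (j / 2) else -(κ (j / 2) + κ (j / 2 + 1)) :=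
    fun _ => rfl
  have hsg : ∀ j, sg j = (((j + 1) / 2 : ℕ) : ZMod 2) := fun _ => rfl
  have hkp1 : ∀ t, κ (t + 2 * n + 1) = κ (t + 1) := by
    intro t
    rw [show t + 2 * n + 1 = t + 1 + 2 * n by ring]
    exact hC.kper _
  have hAp1 : ∀ t, A (t + 2 * n + 1) = A (t + 1) := by
    intro t
    rw [show t + 2 * n + 1 = t + 1 + 2 * n by ring]
    exact hAper _
  have hSper : ∀ s a t, SS s a (t + 2 * n) = SS s a t := by
    intro s a t
    rw [hSS, hSS, hC.kper, hkp1, hAper, hAp1, hper]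
  have htwo : (2 : ZMod 2) = 0 := by decide
  have hdiv : ∀ j, (j + 2 * (2 * n)) / 2 = j / 2 + 2 * n := by intro j; omega
  have hmod : ∀ j, (j + 2 * (2 * n)) % 2 = j % 2 := by intro j; omega
  refine ⟨Y, ka, ⟨?_, ?_, ?_, ?_, ?_⟩, ?_⟩
  · intro a j
    have e : sg (j + 2 * (2 * n)) = sg j := by
      rw [hsg, hsg, show (j + 2 * (2 * n) + 1) / 2 = (j + 1) / 2 + 2 * n by omega]
      push_cast
      rw [htwo]
      ring
    rw [hY, hY, hdiv, hC.per, hSper, e]
  · intro j
    rw [hka, hka, hdiv, hmod, hC.kper, hkp1]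
  · intro j
    rw [hY, hY, hY]
    unfold Pool.Agent.W295.NL.Ext
    refine Prod.ext (hC.sym _) ?_
    show SS (sg j) 2 (j / 2) = SS (sg j) 0 (j / 2) + SS (sg j) 1 (j / 2) +
      f (X 0 (j / 2)) (X 1 (j / 2))
    have h1 := sum3 (fun a => SS (sg j) a (j / 2)) (κ (j / 2)) (κ (j / 2 + 1)) (hC.kne _)
      (A (j / 2) + sg j) (A (j / 2 + 1) + sg j) (h (j / 2)) (fun c => hSS _ _ _)
    have h2 := hA (j / 2)
    have h3 : ∀ z : ZMod 2, z + z = 0 := by decide
    have h4 := h3 (sg j)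
    have h5 := h3 (SS (sg j) 2 (j / 2))
    have h6 : SS (sg j) 0 (j / 2) + SS (sg j) 1 (j / 2) + SS (sg j) 2 (j / 2) =
        A (j / 2) + sg j + (A (j / 2 + 1) + sg j) + h (j / 2) := h1
    linear_combination h5 - h6 - h2 - h4
  · intro j
    have hk := hC.kne (j / 2)
    have h3 := fin3 _ _ hk
    rw [hka, hka]
    rcases Nat.mod_two_eq_zero_or_one j with hj | hj
    · rw [if_pos hj, if_neg (by omega), show (j + 1) / 2 = j / 2 by omega]
      exact h3.1.symm
    · rw [if_neg (by omega), if_pos (by omega), show (j + 1) / 2 = j / 2 + 1 by omega]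
      exact h3.2
  · intro j
    have hk := hC.kne (j / 2)
    have h3 := fin3 _ _ hk
    rw [hka]
    rcases Nat.mod_two_eq_zero_or_one j with hj | hj
    · rw [if_neg (by omega), show (j + 1) / 2 = j / 2 by omega, hY, hY,
        show (j + 1) / 2 = j / 2 by omega, hSS, hSS, if_neg h3.1, if_neg h3.2, if_neg h3.1,
        if_neg h3.2]
    · rw [if_pos (by omega), show (j + 1) / 2 = j / 2 + 1 by omega, hY, hY,
        show (j + 1) / 2 = j / 2 + 1 by omega, hSS, hSS, if_pos rfl, if_neg hk.symm, if_pos rfl,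
        hC.edge, hsg, hsg, show (j + 1 + 1) / 2 = (j + 1) / 2 by omega]
  · intro a j j' hjj hpar
    rw [hY, hY, Prod.mk.injEq] at hjj
    obtain ⟨hX, hS⟩ := hjj
    have hparity : ∀ i : ℕ, sg i + ((i / 2 : ℕ) : ZMod 2) = ((i : ℕ) : ZMod 2) := by
      intro i
      rw [hsg]
      have : i = (i + 1) / 2 + i / 2 := by omega
      conv_rhs => rw [this]
      push_cast
      ring
    have hp2 : ((j : ℕ) : ZMod 2) = ((j' : ℕ) : ZMod 2) := (ZMod.natCast_eq_natCast_iff _ _ _).2 hpar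
    have hp3 : sg j + ((j / 2 : ℕ) : ZMod 2) = sg j' + ((j' / 2 : ℕ) : ZMod 2) := by
      rw [hparity, hparity, hp2]
    have hmod2 : ∀ u v : ℕ, u ≡ v [MOD 2 * n] → ((u : ℕ) : ZMod 2) = ((v : ℕ) : ZMod 2) := by
      intro u v huv
      exact (ZMod.natCast_eq_natCast_iff _ _ _).2 (Nat.ModEq.of_mul_right n huv)
    have hone : (1 : ZMod 2) ≠ 0 := by decide
    rcases hgen a _ _ hX with h1 | ⟨h1, h2⟩ | ⟨h1, h2⟩ | ⟨h1, h2, h3, h4, h5⟩
    · -- the same cell
      have h6 : j % 2 = j' % 2 := hpar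
      have e1 : j = 2 * (j / 2) + j % 2 := by omega
      have e2 : j' = 2 * (j' / 2) + j' % 2 := by omega
      rw [e1, e2, h6]
      exact Nat.ModEq.add_right _ (Nat.ModEq.mul_left' 2 h1.symm)
    · exfalso
      have hk : κ (j' / 2) = κ (j / 2 + 1) := per_eq hC.kper h2
      have hAA : A (j' / 2) = A (j / 2 + 1) := per_eq hAper h2
      have hne : a ≠ κ (j / 2) := by rw [h1]; exact (hC.kne _).symm
      rw [hSS, hSS, if_neg hne, if_pos h1, if_pos (by rw [hk]; exact h1), hAA] at hS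
      have h7 := hmod2 _ _ h2
      push_cast at h7
      apply hone
      have h8 : sg j = sg j' := add_left_cancel hS
      rw [h8, h7] at hp3
      have h9 : ((j / 2 : ℕ) : ZMod 2) + 1 = ((j / 2 : ℕ) : ZMod 2) :=
        (add_left_cancel hp3).symm
      exact add_eq_left.1 h9
    · exfalso
      have hk : κ (j' / 2 + 1) = κ (j / 2) := per_eq hC.kper h2
      have hAA : A (j' / 2 + 1) = A (j / 2) := per_eq hAper h2
      have hne : a ≠ κ (j' / 2) := by rw [h1, ← hk]; exact (hC.kne _).symm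
      rw [hSS, hSS, if_pos h1, if_neg hne, if_pos (by rw [hk]; exact h1), hAA] at hS
      have h7 := hmod2 _ _ h2
      push_cast at h7
      apply hone
      have h8 : sg j = sg j' := add_left_cancel hS
      rw [h8, ← h7] at hp3
      exact add_eq_left.1 (add_left_cancel hp3)
    · exfalso
      rw [hSS, hSS, if_neg h1, if_neg h2, if_neg h3, if_neg h4] at hS
      exact h5 hS

end Pool.Agent.W400.NL.G2B
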